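import Pool.Agent.Helper88_SA.StmtN

/-! SA, module INTKAP. -/

namespace SA.H5

/-- the two inequalities for one entry, natural numbers -/
def kok (d g l : ℕ) : Bool :=
  Nat.ble (2 ^ 39 + 2) (d * ((kapN >>> (40 * l)) % 2 ^ 40) + (g >>> (40 * l)) % 2 ^ 40) &&
  Nat.ble ((g >>> (40 * l)) % 2 ^ 40 + 2) (d * ((kppN >>> (40 * l)) % 2 ^ 40) + 2 ^ 39)

def kall (d g : ℕ) : ℕ → Bool
  | 0 => true
  | l + 1 => kok d g l && kall d g l

theorem kall_spec (d g : ℕ) : ∀ n, kall d g n = true → ∀ l, l < n → kok d g l = true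
  | 0, _, l, hl => absurd hl (Nat.not_lt_zero l)
  | n + 1, h, l, hl => by
    rw [kall, Bool.and_eq_true] at h
    rcases Nat.lt_succ_iff_lt_or_eq.mp hl with h1 | h1
    · exact kall_spec d g n h.2 l h1
    · rw [h1]; exact h.1

theorem aux1 (a d k : ℕ) (h : 2 ^ 39 + 2 ≤ d * k + a) :
    - ((a : ℤ) - 2 ^ 39) + 2 ≤ d * (k : ℤ) := by
  have h1 : (d : ℤ) * (k : ℤ) = ((d * k : ℕ) : ℤ) := by push_cast; ring
  rw [h1]
  generalize d * k = e at *
  omega

theorem aux2 (a d k : ℕ) (h : a + 2 ≤ d * k + 2 ^ 39) :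
    ((a : ℤ) - 2 ^ 39) + 2 ≤ d * (k : ℤ) := by
  have h1 : (d : ℤ) * (k : ℤ) = ((d * k : ℕ) : ℤ) := by push_cast; ring
  rw [h1]
  generalize d * k = e at *
  omega

theorem kok_spec (d l : ℕ) (h : kok d (gN d) l = true) :
    - gT d l + 2 ≤ d * (kap_ l : ℤ) ∧ gT d l + 2 ≤ d * (kpp_ l : ℤ) := by
  rw [kok, Bool.and_eq_true] at h
  obtain ⟨h1, h2⟩ := h
  exact ⟨aux1 _ _ _ (Nat.le_of_ble_eq_true h1), aux2 _ _ _ (Nat.le_of_ble_eq_true h2)⟩

theorem k1 : kall 1 gN1 1200 = true := by decide +kernel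
theorem k2 : kall 2 gN2 1200 = true := by decide +kernel
theorem k3 : kall 3 gN3 1200 = true := by decide +kernel
theorem k4 : kall 4 gN4 1200 = true := by decide +kernel
theorem k5 : kall 5 gN5 1200 = true := by decide +kernel
theorem k6 : kall 6 gN6 1200 = true := by decide +kernel
theorem k7 : kall 7 gN7 1200 = true := by decide +kernel
theorem k8 : kall 8 gN8 1200 = true := by decide +kernel
theorem k9 : kall 9 gN9 1200 = true := by decide +kernel
theorem k10 : kall 10 gN10 1200 = true := by decide +kernel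

def ksum : ℕ → ℕ
  | 0 => 0
  | l + 1 => ksum l + (kppN >>> (40 * l)) % 2 ^ 40

theorem ksum_eq (n : ℕ) : ksum n = ∑ l ∈ Finset.range n, kpp_ l := by
  induction n with
  | zero => rfl
  | succ n ih => rw [Finset.sum_range_succ, ← ih, ksum, kpp_]

theorem ks : ksum 1200 ≤ 4730000000 := by decide +kernel

theorem intKap : IntKapStmt := by
  refine ⟨?_, ?_⟩
  · intro d l h1 h2 hl
    apply kok_spec
    interval_cases d
    · exact kall_spec _ _ _ k1 l hl
    · exact kall_spec _ _ _ k2 l hl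
    · exact kall_spec _ _ _ k3 l hl
    · exact kall_spec _ _ _ k4 l hl
    · exact kall_spec _ _ _ k5 l hl
    · exact kall_spec _ _ _ k6 l hl
    · exact kall_spec _ _ _ k7 l hl
    · exact kall_spec _ _ _ k8 l hl
    · exact kall_spec _ _ _ k9 l hl
    · exact kall_spec _ _ _ k10 l hl
  · rw [← ksum_eq]
    exact ks

end SA.H5

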