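import Pool.Agent.Helper88_SA.StmtN

/-! SA, module INTW. -/

namespace SA.H5

def wok (c : ℤ) : Bool :=
  (decide (-24 ≤ c) && decide (c < 24) || decide (0 < Wt c)) &&
  decide (- 10 ^ 9 ≤ Wt c) &&
  (decide (c < -64) ||
    decide (9560 * max 0 (cosmaxN c) / 10 ^ 4 + (Yt c : ℤ) + 5 * 10 ^ 6 + 10 ^ 8 < 10 ^ 10))

def wall : ℕ → Bool
  | 0 => true
  | n + 1 => wok ((n : ℤ) - 304) && wall n

theorem wall_spec : ∀ n, wall n = true → ∀ l : ℕ, l < n → wok ((l : ℤ) - 304) = true
  | 0, _, l, hl => absurd hl (Nat.not_lt_zero l)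
  | n + 1, h, l, hl => by
    rw [wall, Bool.and_eq_true] at h
    rcases Nat.lt_succ_iff_lt_or_eq.mp hl with h1 | h1
    · exact wall_spec n h.2 l h1
    · rw [h1]; exact h.1

theorem w392 : wall 392 = true := by decide +kernel

theorem wok_all (c : ℤ) (h1 : -304 ≤ c) (h2 : c < 88) : wok c = true := by
  have h := wall_spec 392 w392 (c + 304).toNat (by omega)
  rwa [show (((c + 304).toNat : ℕ) : ℤ) - 304 = c from by omega] at h

theorem intW : IntWStmt := by
  refine ⟨?_, ?_, ?_⟩
  · intro c h1 h2 h3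
    have h := wok_all c h1 h2
    simp only [wok, Bool.and_eq_true, Bool.or_eq_true, decide_eq_true_eq] at h
    rcases h.1.1 with h4 | h4
    · omega
    · exact h4
  · intro c h1 h2
    have h := wok_all c h1 h2
    simp only [wok, Bool.and_eq_true, Bool.or_eq_true, decide_eq_true_eq] at h
    exact h.1.2
  · intro c h1 h2
    have h := wok_all c (by omega) h2
    simp only [wok, Bool.and_eq_true, Bool.or_eq_true, decide_eq_true_eq] at h
    rcases h.2 with h4 | h4
    · omega
    · exact h4

end SA.H5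

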